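import Pool.Agent.Q46.ND.StmE

/-!
Project ND (helper46), elimination part: the elimination theorem `P_EM` from `P_EM1`, `P_EE0`,
`P_EE`, `P_EH`, `P_EI`, `P_EL`.
-/

set_option autoImplicit false

open MvPolynomial

namespace Pool.Agent.Q100.ND.EM

open Pool.Agent.Q46.ND

/-- the evaluation of the coefficients at a point -/
noncomputable def ev {k : Type} [Field k] {m d : ℕ} (a : Mon m d → k) : A0 m d →+* k :=
  ((aeval (fun j : {j : Mon m d // j ≠ v0 m d} => a j.1) : A0 m d →ₐ[ℤ] k) : A0 m d →+* k)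

lemma ev_apply {k : Type} [Field k] {m d : ℕ} (a : Mon m d → k) (p : A0 m d) :
    ev a p = aeval (fun j : {j : Mon m d // j ≠ v0 m d} => a j.1) p := rfl

lemma ev_update {k : Type} [Field k] {m d : ℕ} (a : Mon m d → k) (c : k) :
    ev (Function.update a (v0 m d) c) = ev a := by
  have : (fun j : {j : Mon m d // j ≠ v0 m d} => Function.update a (v0 m d) c j.1) =
      fun j => a j.1 := by
    funext j
    rw [Function.update_of_ne j.2]
  unfold ev
  rw [this]

/-- the resultant-like polynomial `det (δ^N a_{v0} + M)` -/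
noncomputable def chiA {m d : ℕ} (u : A0 m d) (M : Matrix (BB m d) (BB m d) (A0 m d)) :
    MvPolynomial (Mon m d) ℤ :=
  Matrix.det ((rename Subtype.val u * X (v0 m d)) •
    (1 : Matrix (BB m d) (BB m d) (MvPolynomial (Mon m d) ℤ)) +
    M.map (rename (Subtype.val : {j : Mon m d // j ≠ v0 m d} → Mon m d) :
      A0 m d →ₐ[ℤ] MvPolynomial (Mon m d) ℤ))

lemma aeval_chiA {k : Type} [Field k] {m d : ℕ} (a : Mon m d → k) (u : A0 m d)
    (M : Matrix (BB m d) (BB m d) (A0 m d)) :
    aeval a (chiA u M) = Matrix.det ((ev a u * a (v0 m d)) • (1 : Matrix (BB m d) (BB m d) k) +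
      M.map (ev a)) := by
  unfold chiA
  rw [AlgHom.map_det]
  congr 1
  ext i j
  simp only [AlgHom.mapMatrix_apply, Matrix.map_apply, Matrix.add_apply, Matrix.smul_apply,
    smul_eq_mul, map_add, map_mul, aeval_X, aeval_rename]
  rw [ev_apply, ev_apply]
  congr 2
  by_cases h : i = j
  · subst h; simp
  · simp [Matrix.one_apply_ne h]

lemma chiA_ne {m d : ℕ} (hEE : P_EE) (u : A0 m d) (hu : u ≠ 0)
    (M : Matrix (BB m d) (BB m d) (A0 m d)) : chiA u M ≠ 0 := by
  classical
  intro h0
  let θ : MvPolynomial (Mon m d) ℤ →ₐ[ℤ] Polynomial (A0 m d) :=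
    aeval (fun j : Mon m d => if h : j = v0 m d then Polynomial.X else Polynomial.C (X ⟨j, h⟩))
  have h1 : ∀ p : A0 m d, θ (rename Subtype.val p) = Polynomial.C p := by
    intro p
    have : (θ.comp (rename Subtype.val)) =
        ((Polynomial.CAlgHom : A0 m d →ₐ[A0 m d] Polynomial (A0 m d)).restrictScalars ℤ) := by
      apply MvPolynomial.algHom_ext
      intro j
      simp only [AlgHom.comp_apply, rename_X, AlgHom.restrictScalars_apply, Polynomial.CAlgHom]
      simp only [θ, aeval_X]
      rw [dif_neg j.2]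
      rfl
    exact DFunLike.congr_fun this p
  have h2 : θ (chiA u M) = chi u M := by
    unfold chiA chi
    rw [AlgHom.map_det]
    congr 1
    ext i j
    simp only [AlgHom.mapMatrix_apply, Matrix.map_apply, Matrix.add_apply, Matrix.smul_apply,
      smul_eq_mul, map_add, map_mul, h1]
    have h3 : θ (X (v0 m d)) = Polynomial.X := by simp [θ]
    rw [h3]
    by_cases h : i = j
    · subst h; simp
    · simp [Matrix.one_apply_ne h]
  have h4 := (hEE (RingHom.id (A0 m d)) (0 : MvPolynomial (Fin m) (A0 m d)) u M).2.2.2.2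
  rw [← h2, h0, map_zero, Polynomial.coeff_zero] at h4
  exact pow_ne_zero _ hu h4.symm

lemma card_BB (m d : ℕ) : Fintype.card (BB m d) = (d - 1) ^ m := by
  simp [BB]

lemma form_hom {k : Type} [CommRing k] {m d : ℕ} (a : Mon m d → k) :
    (form a).IsHomogeneous d := by
  unfold form
  exact IsHomogeneous.sum _ _ _ fun α _ => isHomogeneous_monomial _ α.2

lemma aff_map {A B : Type} [CommRing A] [CommRing B] (φ : A →+* B) {m : ℕ}
    (f : MvPolynomial (Fin (m + 1)) A) : map φ (aff f) = aff (map φ f) := by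
  unfold aff
  induction f using MvPolynomial.induction_on with
  | C r => simp [algebraMap_eq]
  | add p q hp hq => simp only [map_add, hp, hq]
  | mul_X p i hp =>
    rw [map_mul, map_mul, hp, map_mul, map_mul]
    congr 1
    rw [aeval_X, map_X, aeval_X]
    refine Fin.cases ?_ (fun j => ?_) i
    · simp
    · simp

lemma aff_add {A : Type} [CommRing A] {m : ℕ} (f g : MvPolynomial (Fin (m + 1)) A) :
    aff (f + g) = aff f + aff g := by
  unfold aff; exact map_add _ _ _

lemma map_gen {k : Type} [Field k] {m d : ℕ} (a : Mon m d → k) :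
    map (ev a) (gen m d) = ∑ α : {j : Mon m d // j ≠ v0 m d}, monomial α.1.1 (a α.1) := by
  unfold gen
  rw [map_sum]
  refine Finset.sum_congr rfl fun α _ => ?_
  rw [map_monomial, ev_apply, aeval_X]

lemma form_split {k : Type} [Field k] {m d : ℕ} (a : Mon m d → k) :
    form a = map (ev a) (gen m d) + monomial (v0 m d).1 (a (v0 m d)) := by
  classical
  rw [map_gen]
  unfold form
  rw [← Finset.sum_erase_add _ _ (Finset.mem_univ (v0 m d))]
  congr 1
  refine Finset.sum_bij' (fun α h => ⟨α, (Finset.mem_erase.mp h).1⟩) (fun α _ => α.1) ?_ ?_ ?_ ?_ ?_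
  · intro α h; exact Finset.mem_univ _
  · intro α h; exact Finset.mem_erase.mpr ⟨α.2, Finset.mem_univ _⟩
  · intro α h; rfl
  · intro α h; rfl
  · intro α h; rfl

lemma aff_v0 {k : Type} [Field k] {m d : ℕ} (c : k) :
    aff (monomial (v0 m d).1 c) = C c := by
  unfold aff v0
  rw [aeval_monomial]
  simp [algebraMap_eq]

lemma aff_form {k : Type} [Field k] {m d : ℕ} (a : Mon m d → k) :
    aff (form a) = map (ev a) (aff (gen m d)) + C (a (v0 m d)) := by
  rw [form_split, aff_add, aff_v0, aff_map]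

lemma ev_comp {k k₁ : Type} [Field k] [Field k₁] (ψ : k →+* k₁) {m d : ℕ} (a : Mon m d → k) :
    ψ.comp (ev a) = ev (fun α => ψ (a α)) := by
  apply MvPolynomial.ringHom_ext
  · intro r
    simp [ev_apply]
  · intro j
    simp [ev_apply, ev]

lemma map_form {k k₁ : Type} [Field k] [Field k₁] (ψ : k →+* k₁) {m d : ℕ} (a : Mon m d → k) :
    map ψ (form a) = form (fun α => ψ (a α)) := by
  unfold form
  rw [map_sum]
  exact Finset.sum_congr rfl fun α _ => by rw [map_monomial]

open scoped Classical in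
lemma map_top {k : Type} [Field k] {m d : ℕ} (a : Mon m d → k) :
    map (ev a) (top m d) = aff (∑ α ∈ Finset.univ.filter
      fun α : {j : Mon m d // j ≠ v0 m d} => α.1.1 0 = 0, monomial α.1.1 (a α.1)) := by
  unfold top
  rw [aff_map, map_sum]
  congr 1
  refine Finset.sum_congr rfl fun α _ => ?_
  rw [map_monomial, ev_apply, aeval_X]

lemma mono_eval_eq {k : Type} [Field k] {m : ℕ} (α : Fin (m + 1) →₀ ℕ) (h0 : α 0 = 0) (c : k)
    (v w : Fin (m + 1) → k) (hvw : ∀ i : Fin m, v i.succ = w i.succ) (j : Fin (m + 1)) :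
    eval v (pderiv j (monomial α c)) = eval w (pderiv j (monomial α c)) := by
  rw [pderiv_monomial, eval_monomial, eval_monomial]
  congr 1
  unfold Finsupp.prod
  refine Finset.prod_congr rfl fun i hi => ?_
  have hi0 : i ≠ 0 := by
    rintro rfl
    rw [Finsupp.mem_support_iff] at hi
    apply hi
    simp [h0]
  obtain ⟨i', rfl⟩ := Fin.exists_succ_eq_of_ne_zero hi0
  simp only [hvw]

lemma mono_eval_zero {k : Type} [Field k] {m : ℕ} (α : Fin (m + 1) →₀ ℕ) (h0 : α 0 ≠ 0) (c : k)
    (v : Fin (m + 1) → k) (hv : v 0 = 0) (i : Fin m) :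
    eval v (pderiv i.succ (monomial α c)) = 0 := by
  rw [pderiv_monomial, eval_monomial]
  apply mul_eq_zero_of_right
  unfold Finsupp.prod
  apply Finset.prod_eq_zero (i := (0 : Fin (m + 1)))
  · rw [Finsupp.mem_support_iff]
    simp [Finsupp.single_apply, Fin.succ_ne_zero, h0]
  · simp only [hv]
    apply zero_pow
    simp [Finsupp.single_apply, Fin.succ_ne_zero, h0]

lemma crit0 (hEL : P_EL) {k : Type} [Field k] {m d : ℕ} (hd : 1 ≤ d) (a : Mon m d → k)
    (v : Fin (m + 1) → k) (hv : v 0 = 0) (i : Fin m) :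
    eval v (pderiv i.succ (form a)) =
      eval (fun i => v i.succ) (pderiv i (map (ev a) (top m d))) := by
  classical
  rw [map_top]
  set q : MvPolynomial (Fin (m + 1)) k := ∑ α ∈ Finset.univ.filter
      fun α : {j : Mon m d // j ≠ v0 m d} => α.1.1 0 = 0, monomial α.1.1 (a α.1) with hq
  let w : Fin (m + 1) → k := Fin.cons 1 (fun i => v i.succ)
  have h1 := (hEL (m := m) (d := d) q).1 i
  have h2 := (hEL (m := m) (d := d) (pderiv i.succ q)).2.1 w rfl
  have h3 : (fun i : Fin m => w i.succ) = fun i => v i.succ := by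
    funext i; rfl
  rw [h3] at h2
  rw [h1, ← h2, hq]
  unfold form
  rw [map_sum, map_sum, map_sum, map_sum]
  rw [← Finset.sum_filter_add_sum_filter_not Finset.univ (fun α : Mon m d => α.1 0 = 0)]
  have h4 : ∑ x ∈ Finset.univ.filter (fun α : Mon m d => ¬ α.1 0 = 0),
      eval v (pderiv i.succ (monomial x.1 (a x))) = 0 :=
    Finset.sum_eq_zero fun α hα => mono_eval_zero _ (Finset.mem_filter.mp hα).2 _ _ hv _
  rw [h4, add_zero]
  symm
  refine Finset.sum_bij' (fun α _ => α.1)
    (fun α h => ⟨α, fun h0 => by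
      have h5 := (Finset.mem_filter.mp h).2
      rw [h0] at h5
      simp [v0] at h5
      omega⟩) ?_ ?_ ?_ ?_ ?_
  · intro α h
    exact Finset.mem_filter.mpr ⟨Finset.mem_univ _, (Finset.mem_filter.mp h).2⟩
  · intro α h
    exact Finset.mem_filter.mpr ⟨Finset.mem_univ _, (Finset.mem_filter.mp h).2⟩
  · intro α h; rfl
  · intro α h; rfl
  · intro α h
    exact mono_eval_eq (k := k) α.1.1 (Finset.mem_filter.mp h).2 (a α.1) w v (fun i => rfl) i.succ

/-- singular points of the form and critical points of its affine part -/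
lemma key (hEI : P_EI) (hEL : P_EL) (hEE0 : P_EE0) {k : Type} [Field k] {m d : ℕ} (hd : 3 ≤ d)
    (a : Mon m d → k) (δ : A0 m d) (hδ : ev a δ ≠ 0) (hred : RedHom d (top m d) δ)
    {k₁ : Type} [Field k₁] (ψ : k →+* k₁) (v : Fin (m + 1) → k₁) (hv : v ≠ 0)
    (hcrit : ∀ j, eval v (map ψ (pderiv j (form a))) = 0)
    (hval : eval v (map ψ (form a)) = 0) :
    v 0 ≠ 0 ∧
    (∀ i, eval (fun i : Fin m => v i.succ / v 0)
      (map ψ (pderiv i (map (ev a) (aff (gen m d))))) = 0) ∧
    eval (fun i : Fin m => v i.succ / v 0) (map ψ (map (ev a) (aff (gen m d)))) +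
      ψ (a (v0 m d)) = 0 := by
  have hcrit' : ∀ j, eval v (pderiv j (form (fun α => ψ (a α)))) = 0 := by
    intro j
    rw [← map_form, pderiv_map]
    exact hcrit j
  have hval' : eval v (form (fun α => ψ (a α))) = 0 := by
    rw [← map_form]; exact hval
  have hv0 : v 0 ≠ 0 := by
    intro h0
    apply hv
    have h1 := hEE0 (ev (fun α => ψ (a α))) (top m d) δ hred
    have hδ' : ev (fun α => ψ (a α)) δ ≠ 0 := by
      rw [← ev_comp, RingHom.comp_apply]
      exact (map_ne_zero ψ).mpr hδ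
    have h2 := hEI (by omega) _ _ hδ' h1 k₁ (RingHom.id k₁) (fun i => v i.succ) (by
      intro i
      rw [map_id, ← crit0 hEL (by omega) _ v h0 i]
      exact hcrit' _)
    funext j
    refine Fin.cases ?_ (fun i => ?_) j
    · exact h0
    · exact congrFun h2 i
  refine ⟨hv0, ?_⟩
  set w : Fin (m + 1) → k₁ := Fin.cons 1 (fun i : Fin m => v i.succ / v 0) with hw
  have hvw : (fun j => v 0 * w j) = v := by
    funext j
    refine Fin.cases ?_ (fun i => ?_) j
    · simp [hw]
    · simp only [hw, Fin.cons_succ]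
      field_simp
  have hw0 : w 0 = 1 := rfl
  have hwt : (fun i : Fin m => w i.succ) = fun i => v i.succ / v 0 := by
    funext i; rfl
  set f1 := form (fun α => ψ (a α)) with hf1
  have hEL1 := hEL (m := m) (d := d) f1
  have hEL3 := hEL1.2.2 (form_hom _) (v 0) w
  have hcw : ∀ j, eval w (pderiv j f1) = 0 := by
    intro j
    have h1 := hEL3.2.1 j
    rw [hvw, hcrit' j] at h1
    exact (mul_eq_zero.mp h1.symm).resolve_left (pow_ne_zero _ hv0)
  have hvw' : eval w f1 = 0 := by
    have h1 := hEL3.1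
    rw [hvw, hval'] at h1
    exact (mul_eq_zero.mp h1.symm).resolve_left (pow_ne_zero _ hv0)
  have haff : aff f1 = map ψ (map (ev a) (aff (gen m d))) + C (ψ (a (v0 m d))) := by
    rw [hf1, aff_form, ← ev_comp, map_map]
  constructor
  · intro i
    rw [← pderiv_map]
    have h1 := hEL1.1 i
    have h2 := (hEL (m := m) (d := d) (pderiv i.succ f1)).2.1 w hw0
    rw [hcw, hwt, ← h1, haff, map_add, pderiv_C, add_zero] at h2
    exact h2.symm
  · have h2 := hEL1.2.1 w hw0
    rw [hvw', hwt, haff, map_add, eval_C] at h2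
    exact h2.symm

lemma fin_vars (m d : ℕ) (δ : A0 m d) (h : ∀ α ∈ δ.vars, α.1.1 0 = 0) :
    ∀ α ∈ (rename (Subtype.val : {j : Mon m d // j ≠ v0 m d} → Mon m d) δ).vars,
      α.1 0 = 0 := by
  classical
  intro α hα
  have := vars_rename _ _ hα
  rw [Finset.mem_image] at this
  obtain ⟨j, hj, rfl⟩ := this
  exact h j hj

theorem t_EM (h1 : P_EM1) (hEE0 : P_EE0) (hEE : P_EE) (hEH : P_EH) (hEI : P_EI) (hEL : P_EL) :
    P_EM := by
  classical
  intro m d hm hd
  obtain ⟨δ, R, N, M, hδ, hR, hvars, hred, hM, hspan⟩ := h1 m d hm hd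
  refine ⟨rename Subtype.val δ, chiA (δ ^ N) M, R, ?_, chiA_ne hEE _ (pow_ne_zero _ hδ) M, hR,
    fin_vars m d δ hvars, ?_⟩
  · exact fun h => hδ ((rename_injective _ Subtype.val_injective) (h.trans (map_zero _).symm))
  intro k _ a hΔ
  have hδa : ev a δ ≠ 0 := by
    rw [aeval_rename] at hΔ
    exact hΔ
  have hu : ev a (δ ^ N) ≠ 0 := by
    rw [map_pow]; exact pow_ne_zero _ hδa
  obtain ⟨e1, e2, e3, e4, e5⟩ := hEE (ev a) (aff (gen m d)) (δ ^ N) M
  have hMR := e1 hM
  obtain ⟨-, -, f3, f4, f5⟩ := hEE (RingHom.id k) (0 : MvPolynomial (Fin m) k) (ev a (δ ^ N))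
    (M.map (ev a))
  have hchi0 : chi (ev a (δ ^ N)) (M.map (ev a)) ≠ 0 := by
    intro h0
    rw [h0, Polynomial.coeff_zero] at f5
    exact pow_ne_zero _ hu f5.symm
  have hchiev : ∀ c, aeval (Function.update a (v0 m d) c) (chiA (δ ^ N) M) =
      (chi (ev a (δ ^ N)) (M.map (ev a))).eval c := by
    intro c
    rw [aeval_chiA, ev_update, Function.update_self, f3]
  have hchia : aeval a (chiA (δ ^ N) M) =
      (chi (ev a (δ ^ N)) (M.map (ev a))).eval (a (v0 m d)) := by
    have := hchiev (a (v0 m d))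
    rwa [Function.update_eq_self] at this
  refine ⟨⟨(chi (ev a (δ ^ N)) (M.map (ev a))).roots.toFinset, ?_, ?_⟩, ?_⟩
  · calc _ ≤ (chi (ev a (δ ^ N)) (M.map (ev a))).roots.card := Multiset.toFinset_card_le _
      _ ≤ _ := Polynomial.card_roots' _
      _ ≤ _ := f4
      _ = _ := card_BB m d
  · intro c hc
    rw [Multiset.mem_toFinset, Polynomial.mem_roots hchi0, Polynomial.IsRoot.def, ← hchiev]
    exact hc
  -- EH
  have hEH' : ((ev a R ≠ 0 ∨ aeval a (chiA (δ ^ N) M) ≠ 0) →
      (chi (ev a (δ ^ N)) (M.map (ev a))).eval (a (v0 m d)) ≠ 0 ∨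
      (Polynomial.derivative (chi (ev a (δ ^ N)) (M.map (ev a)))).eval (a (v0 m d)) ≠ 0) := by
    rintro (h | h)
    · by_contra hcon
      push Not at hcon
      apply h
      have h2 := Ideal.mem_map_of_mem (Polynomial.mapRingHom (ev a)) hspan
      rw [Ideal.map_span, Set.image_pair] at h2
      simp only [Polynomial.coe_mapRingHom, Polynomial.map_C] at h2
      rw [← Polynomial.derivative_map, ← e2] at h2
      obtain ⟨x, y, hxy⟩ := Ideal.mem_span_pair.mp h2
      have h3 := congrArg (Polynomial.eval (a (v0 m d))) hxy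
      rw [Polynomial.eval_add, Polynomial.eval_mul, Polynomial.eval_mul, hcon.1, hcon.2,
        Polynomial.eval_C] at h3
      simpa using h3.symm
    · left; rw [← hchia]; exact h
  have main : ∀ (h : ev a R ≠ 0 ∨ aeval a (chiA (δ ^ N) M) ≠ 0), ∃ b : Fin m → k,
      (∀ (k₁ : Type) [Field k₁] (ψ : k →+* k₁) (v : Fin (m + 1) → k₁), v ≠ 0 →
        (∀ j, eval v (map ψ (pderiv j (form a))) = 0) → eval v (map ψ (form a)) = 0 →
        aeval a (chiA (δ ^ N) M) = 0 ∧ ∀ i : Fin m, v i.succ = v 0 * ψ (b i)) ∧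
      ((∀ i, eval b (pderiv i (map (ev a) (aff (gen m d)))) = 0) →
        eval b (map (ev a) (aff (gen m d))) + a (v0 m d) = 0 →
        Matrix.det (Matrix.of fun i j : Fin m =>
          eval b (pderiv i (pderiv j (map (ev a) (aff (gen m d)))))) ≠ 0) := by
    intro h
    obtain ⟨b, hb1, hb2⟩ := hEH hd (map (ev a) (aff (gen m d))) (ev a (δ ^ N)) (M.map (ev a))
      (a (v0 m d)) hu hMR (hEH' h)
    refine ⟨b, ?_, hb2⟩
    intro k₁ _ ψ v hv hcrit hval
    obtain ⟨g1, g2, g3⟩ := key hEI hEL hEE0 hd a δ hδa hred ψ v hv hcrit hval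
    obtain ⟨g4, g5⟩ := hb1 k₁ ψ (fun i => v i.succ / v 0) g2 g3
    refine ⟨hchia.trans g4, fun i => ?_⟩
    have := congrFun g5 i
    rw [← this]
    field_simp
  refine ⟨?_, ?_⟩
  · intro h
    obtain ⟨b, hb1, hb2⟩ := main h
    refine ⟨Fin.cons 1 b, rfl, ?_, ?_⟩
    · intro k₁ _ ψ v hv hcrit hval
      intro j
      refine Fin.cases ?_ (fun i => ?_) j
      · simp
      · rw [Fin.cons_succ]
        exact (hb1 k₁ ψ v hv hcrit hval).2 i
    · intro hc hv
      have hEL1 := hEL (m := m) (d := d) (form a)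
      have haff := aff_form a
      have htail : (fun i : Fin m => (Fin.cons 1 b : Fin (m + 1) → k) i.succ) = b := by
        funext i; rfl
      have hev : ∀ q : MvPolynomial (Fin (m + 1)) k,
          eval (Fin.cons 1 b : Fin (m + 1) → k) q = eval b (aff q) := by
        intro q
        have := (hEL (m := m) (d := d) q).2.1 (Fin.cons 1 b) rfl
        rwa [htail] at this
      have hp1 : ∀ i : Fin m, aff (pderiv i.succ (form a)) =
          pderiv i (map (ev a) (aff (gen m d))) := by
        intro i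
        rw [← hEL1.1 i, haff, map_add, pderiv_C, add_zero]
      have hp2 : ∀ i j : Fin m, aff (pderiv i.succ (pderiv j.succ (form a))) =
          pderiv i (pderiv j (map (ev a) (aff (gen m d)))) := by
        intro i j
        rw [← (hEL (m := m) (d := d) (pderiv j.succ (form a))).1 i, hp1]
      have h3 := hb2 (fun i => by rw [← hp1, ← hev]; exact hc _) (by
        rw [hev, haff, map_add, eval_C] at hv
        exact hv)
      intro h4
      apply h3
      let e : Fin m ≃ {j : Fin (m + 1) // j ≠ 0} := finSuccAboveEquiv (0 : Fin (m + 1))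
      have he : ∀ i, (e i).1 = i.succ := by
        intro i
        simp [e, finSuccAboveEquiv]
      rw [← Matrix.det_submatrix_equiv_self e] at h4
      rw [← h4]
      congr 1
      ext i j
      simp only [Matrix.of_apply, Matrix.submatrix_apply, he]
      rw [hev, hp2]
  · intro h k₁ _ ψ v hv hcrit hval
    obtain ⟨b, hb1, -⟩ := main (Or.inr h)
    exact h (hb1 k₁ ψ v hv hcrit hval).1

end Pool.Agent.Q100.ND.EM
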